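import Pool.Agent.TH675.HU.C13b

set_option autoImplicit false

open MeasureTheory Set Metric Filter Topology
open scoped ENNReal Real
open Pool.Agent.TH304.MI Pool.Agent.TH703.HU

noncomputable section

namespace Pool.Agent.TH675.HU

/-- Multiplication by a unit complex number. -/
def rt (c : ℂ) (hc : ‖c‖ = 1) : ℂ ≃ₗᵢ[ℝ] ℂ := rotation ⟨c, mem_sphere_zero_iff_norm.2 hc⟩

theorem rt_apply (c : ℂ) (hc : ‖c‖ = 1) (x : ℂ) : rt c hc x = c * x := rfl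

theorem transport {w : ℂ → ℝ} {Λ v ρ : ℝ} (hD : {x | 0 < w x} = DD) (c12 : S_C12) {c : ℂ}
    (hc : ‖c‖ = 1) (hinv : ∀ x, w (c * x) = w x)
    (h1 : ∀ A : Set ℂ, MinW w Λ v A → volume (A ∩ DD ∩ ball 1 ρ) = 0)
    {A : Set ℂ} (hA : MinW w Λ v A) : volume (A ∩ DD ∩ ball c ρ) = 0 := by
  have h2 := h1 _ (c12 w (rt c hc) (fun x => by rw [rt_apply, hinv]) Λ v A hA)
  have e : (rt c hc) ⁻¹' (A ∩ DD ∩ ball c ρ) = (rt c hc) ⁻¹' A ∩ DD ∩ ball 1 ρ := by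
    ext x
    simp only [mem_preimage, mem_inter_iff]
    have e1 : (rt c hc) x ∈ DD ↔ x ∈ DD := by
      rw [← hD]; show 0 < w (rt c hc x) ↔ 0 < w x; rw [rt_apply, hinv]
    have e2 : (rt c hc) x ∈ ball c ρ ↔ x ∈ ball (1 : ℂ) ρ := by
      have h := (rt c hc).dist_map x 1
      rw [rt_apply c hc 1, mul_one] at h
      rw [mem_ball, mem_ball, h]
    rw [e1, e2]
  rw [← e] at h2
  rwa [(LinearIsometryEquiv.measurePreserving (rt c hc)).measure_preimage_emb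
    (rt c hc).toHomeomorph.measurableEmbedding] at h2

theorem c13 (c0 : S_C0) (c1 : S_C1) (c4 : S_C4) (c5 : S_C5) (c6 : S_C6) (c7 : S_C7) (c8 : S_C8)
    (c9 : S_C9) (c10 : S_C10) (c11 : S_C11) (c12 : S_C12) : S_C13 := by
  have hδ : (0 : ℝ) < dl := by unfold dl; positivity
  obtain ⟨m1, H1⟩ := c1.1 dl hδ
  obtain ⟨m5, H5⟩ := c5
  obtain ⟨m6, H6⟩ := c6
  obtain ⟨m7, H7⟩ := c7 100000 (by norm_num)
  obtain ⟨m8, H8⟩ := c8 dl hδ
  obtain ⟨m, g1, g5, g6, g7, g8, g9⟩ : ∃ m : ℕ, m1 ≤ m ∧ m5 ≤ m ∧ m6 ≤ m ∧ m7 ≤ m ∧ m8 ≤ m ∧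
      10 ^ 14 ≤ m := by
    refine ⟨m1 + m5 + m6 + m7 + m8 + 10 ^ 14, ?_⟩
    refine ⟨?_, ?_, ?_, ?_, ?_, ?_⟩ <;> omega
  have hm1 : 1 ≤ m := le_trans (by norm_num) g9
  obtain ⟨-, hc, hw, hw1, hD, -, hi, s1, s2, s3, -, -⟩ := c0 m hm1
  obtain ⟨hin, hout⟩ := H1 m g1
  have H5' := H5 m g5
  have H6' := H6 m g6
  have H7' := H7 m g7
  obtain ⟨hcont, hq⟩ := H8 m g8
  have hsm : (10 : ℝ) ^ 7 ≤ √m := by
    apply Real.le_sqrt_of_sq_le
    have : ((10 ^ 14 : ℕ) : ℝ) ≤ (m : ℝ) := by exact_mod_cast g9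
    refine le_trans (le_of_eq ?_) this
    norm_num
  have hpi := Real.pi_gt_d4
  have hpi' := Real.pi_lt_d4
  have near : ∀ A : Set ℂ, MinW (wt m) 100000 vv A → volume (A ∩ DD ∩ ball 1 (1 / 20)) = 0 := by
    intro A hA
    have hmass := massA hc hw hw1 hi hD c4 hin hout _ hcont hq hA
    have hstrip := near1 hsm hc hw hw1 hi hD c9 c10 c11 H5' H6' hA hmass
    exact H7' vv A hA hstrip
  refine ⟨100000, vv, m, by norm_num, by unfold vv; norm_num, by unfold vv; norm_num, hm1, ?_, ?_⟩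
  · obtain ⟨k1, k2⟩ := hq (41 / 2000000) ⟨by norm_num, by norm_num⟩
    rw [abs_le] at k1
    refine ⟨ball ⟨1 / 2, 1 / 2⟩ (41 / 2000000), _, measurableSet_ball, ?_, k2, ?_⟩
    · have := k1.2
      unfold vv dl at *
      linarith
    · have := k1.1
      unfold dl at *
      linarith
  · intro A hA c hcc
    have inv : ∀ a b : ℝ, wt m ⟨-b, a⟩ = wt m ⟨a, b⟩ := fun a b => by rw [s2, s1]
    have eI : ∀ x : ℂ, Complex.I * x = ⟨-x.im, x.re⟩ := by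
      intro x; apply Complex.ext <;> simp
    have eN : ∀ x : ℂ, (-1) * x = ⟨-x.re, -x.im⟩ := by
      intro x; apply Complex.ext <;> simp
    have eNI : ∀ x : ℂ, (-Complex.I) * x = ⟨x.im, -x.re⟩ := by
      intro x; apply Complex.ext <;> simp
    have eta : ∀ x : ℂ, (⟨x.re, x.im⟩ : ℂ) = x := fun x => rfl
    rcases hcc with rfl | rfl | rfl | rfl
    · exact near A hA
    · refine transport hD c12 (by simp) ?_ near hA
      intro x; rw [eN, s2, s3, eta]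
    · refine transport hD c12 (by simp) ?_ near hA
      intro x; rw [eI, inv, eta]
    · refine transport hD c12 (by simp) ?_ near hA
      intro x; rw [eNI, s3, s1, eta]

end Pool.Agent.TH675.HU
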