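import Pool.Agent.TH703.HU.Stm

set_option autoImplicit false

open MeasureTheory Set Metric Filter Topology
open scoped ENNReal Real
open Pool.Agent.TH304.MI Pool.Agent.TH703.HU

noncomputable section

namespace Pool.Agent.TH675.HU

/-! ## Generalities on `mu` and `PW` -/

theorem PW_nonneg {w : ℂ → ℝ} {A : Set ℂ} {P : ℝ} (hw : ∀ x, 0 ≤ w x) (h : PW w A P) : 0 ≤ P := by
  have h0 : TW w (fun _ => (0 : ℂ)) := by
    refine ⟨contDiff_const, ?_, ?_, ?_⟩
    · exact HasCompactSupport.zero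
    · have : tsupport (fun _ : ℂ => (0 : ℂ)) = ∅ := by
        rw [tsupport_eq_empty_iff]; rfl
      rw [this]; exact empty_subset _
    · intro x; simpa using hw x
  have h1 := h _ h0
  simpa [dv2] using h1

theorem mu_mono {w : ℂ → ℝ} (hw : ∀ x, 0 ≤ w x) (hi : Integrable w) {A B : Set ℂ}
    (hAB : A ⊆ B) : mu w A ≤ mu w B := by
  unfold mu
  exact setIntegral_mono_set hi.integrableOn (Eventually.of_forall hw) (Eventually.of_forall hAB)

theorem mu_nonneg {w : ℂ → ℝ} (hw : ∀ x, 0 ≤ w x) (A : Set ℂ) : 0 ≤ mu w A := by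
  unfold mu
  exact integral_nonneg hw

theorem mu_union {w : ℂ → ℝ} (hi : Integrable w) {A B : Set ℂ} (hB : MeasurableSet B)
    (hd : Disjoint A B) : mu w (A ∪ B) = mu w A + mu w B := by
  unfold mu
  exact setIntegral_union hd hB hi.integrableOn hi.integrableOn

theorem mu_le_vol {w : ℂ → ℝ} (h1 : ∀ x, w x ≤ 1) (hi : Integrable w) {A : Set ℂ}
    (hf : volume A ≠ ⊤) : mu w A ≤ volume.real A := by
  unfold mu
  calc ∫ x in A, w x ≤ ∫ x in A, (1 : ℝ) :=
        integral_mono hi.integrableOn (integrableOn_const hf) h1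
    _ = volume.real A := by simp

theorem vol_ball (c : ℂ) {r : ℝ} (hr : 0 ≤ r) : volume.real (ball c r) = π * r ^ 2 := by
  rw [Measure.real, Complex.volume_ball]
  simp [ENNReal.toReal_mul, ENNReal.toReal_pow, ENNReal.toReal_ofReal hr]
  ring

theorem ball_diff {w : ℂ → ℝ} (hw : ∀ x, 0 ≤ w x) (h1 : ∀ x, w x ≤ 1) (hi : Integrable w)
    {A : Set ℂ} (hA : MeasurableSet A) (c : ℂ) {s t : ℝ} (hs : 0 ≤ s) (hst : s ≤ t) :
    mu w (A ∩ ball c t) - mu w (A ∩ ball c s) ≤ π * t ^ 2 - π * s ^ 2 := by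
  have hsub : ball c s ⊆ ball c t := ball_subset_ball hst
  have e : A ∩ ball c t = (A ∩ ball c s) ∪ (A ∩ (ball c t \ ball c s)) := by
    ext x; simp only [mem_inter_iff, mem_union, Set.mem_sdiff]
    constructor
    · rintro ⟨h1, h2⟩
      by_cases h3 : x ∈ ball c s
      · exact Or.inl ⟨h1, h3⟩
      · exact Or.inr ⟨h1, h2, h3⟩
    · rintro (⟨h1, h2⟩ | ⟨h1, h2, _⟩)
      · exact ⟨h1, hsub h2⟩
      · exact ⟨h1, h2⟩
  have hd : Disjoint (A ∩ ball c s) (A ∩ (ball c t \ ball c s)) := by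
    rw [Set.disjoint_left]
    rintro x ⟨_, h2⟩ ⟨_, _, h3⟩
    exact h3 h2
  have hm : MeasurableSet (A ∩ (ball c t \ ball c s)) :=
    hA.inter (measurableSet_ball.diff measurableSet_ball)
  rw [e, mu_union hi hm hd]
  have hf : volume (ball c t \ ball c s) ≠ ⊤ :=
    ne_top_of_le_ne_top measure_ball_lt_top.ne (measure_mono sdiff_subset)
  have h2 : mu w (A ∩ (ball c t \ ball c s)) ≤ volume.real (ball c t \ ball c s) :=
    (mu_mono hw hi inter_subset_right).trans (mu_le_vol h1 hi hf)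
  have h3 : volume.real (ball c t \ ball c s) = volume.real (ball c t) - volume.real (ball c s) :=
    measureReal_sdiff hsub measurableSet_ball
  rw [h3, vol_ball c (hs.trans hst), vol_ball c hs] at h2
  linarith

theorem ball_mono {w : ℂ → ℝ} (hw : ∀ x, 0 ≤ w x) (hi : Integrable w)
    (A : Set ℂ) (c : ℂ) (s : Set ℝ) :
    MonotoneOn (fun t => mu w (A ∩ ball c t)) s := by
  intro a _ b _ hab
  exact mu_mono hw hi (inter_subset_inter_right _ (ball_subset_ball hab))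

theorem ball_lip {w : ℂ → ℝ} (hw : ∀ x, 0 ≤ w x) (h1 : ∀ x, w x ≤ 1) (hi : Integrable w)
    {A : Set ℂ} (hA : MeasurableSet A) (c : ℂ) {r R : ℝ} (hr : 0 ≤ r) :
    ∀ s ∈ Icc r R, ∀ t ∈ Icc r R,
      |mu w (A ∩ ball c s) - mu w (A ∩ ball c t)| ≤ (π * (2 * R)) * |s - t| := by
  have key : ∀ s ∈ Icc r R, ∀ t ∈ Icc r R, s ≤ t →
      |mu w (A ∩ ball c s) - mu w (A ∩ ball c t)| ≤ (π * (2 * R)) * |s - t| := by
    intro s hs t ht hst
    have h2 := ball_mono hw hi A c univ (mem_univ s) (mem_univ t) hst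
    have h3 := ball_diff hw h1 hi hA c (hr.trans hs.1) hst
    simp only at h2
    rw [abs_of_nonpos (by linarith), abs_of_nonpos (by linarith)]
    have h4 : π * t ^ 2 - π * s ^ 2 ≤ (π * (2 * R)) * -(s - t) := by
      have h5 : (0 : ℝ) ≤ π * (t - s) := mul_nonneg Real.pi_pos.le (by linarith)
      nlinarith [hs.2, ht.2, h5, mul_nonneg h5 (by linarith [hs.2, ht.2] : (0:ℝ) ≤ 2 * R - (s + t))]
    linarith
  intro s hs t ht
  rcases le_total s t with h | h
  · exact key s hs t ht h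
  · rw [abs_sub_comm, abs_sub_comm s t]; exact key t ht s hs h


/-! ## Boxes -/

/-- The closed box. -/
def bx (a b c d : ℝ) : Set ℂ := {x | a ≤ x.re ∧ x.re ≤ b ∧ c ≤ x.im ∧ x.im ≤ d}

theorem bx_meas (a b c d : ℝ) : MeasurableSet (bx a b c d) := by
  have e : bx a b c d = {x : ℂ | a ≤ x.re} ∩ ({x : ℂ | x.re ≤ b} ∩ ({x : ℂ | c ≤ x.im} ∩
      {x : ℂ | x.im ≤ d})) := by
    ext x; simp [bx]
  rw [e]
  exact (measurableSet_le measurable_const Complex.measurable_re).inter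
    ((measurableSet_le Complex.measurable_re measurable_const).inter
    ((measurableSet_le measurable_const Complex.measurable_im).inter
    (measurableSet_le Complex.measurable_im measurable_const)))

theorem bx_vol' (a b c d : ℝ) :
    volume (bx a b c d) = ENNReal.ofReal (b - a) * ENNReal.ofReal (d - c) := by
  have e : bx a b c d = Complex.measurableEquivRealProd ⁻¹' (Icc a b ×ˢ Icc c d) := by
    ext x
    simp [bx, Complex.measurableEquivRealProd_apply, and_assoc]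
    tauto
  rw [e, Complex.volume_preserving_equiv_real_prod.measure_preimage
    (measurableSet_Icc.prod measurableSet_Icc).nullMeasurableSet, Measure.volume_eq_prod,
    Measure.prod_prod, Real.volume_Icc, Real.volume_Icc]

theorem bx_fin (a b c d : ℝ) : volume (bx a b c d) ≠ ⊤ := by
  rw [bx_vol']; exact ENNReal.mul_ne_top ENNReal.ofReal_ne_top ENNReal.ofReal_ne_top

theorem bx_vol {a b c d : ℝ} (h1 : a ≤ b) (h2 : c ≤ d) :
    volume.real (bx a b c d) = (b - a) * (d - c) := by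
  rw [Measure.real, bx_vol', ENNReal.toReal_mul, ENNReal.toReal_ofReal (by linarith),
    ENNReal.toReal_ofReal (by linarith)]

/-- The square of the statement. -/
def QQ (δ : ℝ) : Set ℂ := {x | |x.re| < 1 / 2 - δ ∧ |x.im| < 1 / 2 - δ}

theorem QQ_meas (δ : ℝ) : MeasurableSet (QQ δ) := by
  have e : QQ δ = {x : ℂ | |x.re| < 1 / 2 - δ} ∩ {x : ℂ | |x.im| < 1 / 2 - δ} := by
    ext x; simp [QQ]
  rw [e]
  exact (measurableSet_lt Complex.measurable_re.abs measurable_const).inter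
    (measurableSet_lt Complex.measurable_im.abs measurable_const)

theorem QQ_fin {δ : ℝ} (hδ : 0 ≤ δ) (E : Set ℂ) : volume (E ∩ QQ δ) ≠ ⊤ := by
  refine ne_top_of_le_ne_top (bx_fin (-1) 1 (-1) 1) (measure_mono ?_)
  rintro x ⟨_, h1, h2⟩
  rw [abs_lt] at h1 h2
  exact ⟨by linarith [h1.1], by linarith [h1.2], by linarith [h2.1], by linarith [h2.2]⟩

theorem outQ {w : ℂ → ℝ} {δ : ℝ} (hw : ∀ x, 0 ≤ w x) (h1 : ∀ x, w x ≤ 1) (hi : Integrable w)
    (hD : {x | 0 < w x} = DD) (hδ : 0 < δ)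
    (ht : ∀ x : ℂ, (1 / 2 + δ ≤ |x.re| ∨ 1 / 2 + δ ≤ |x.im|) → w x ≤ δ)
    {E : Set ℂ} (hE : MeasurableSet E) : mu w E ≤ volume.real (E ∩ QQ δ) + 20 * δ := by
  have e : E = (E ∩ QQ δ) ∪ (E \ QQ δ) := (inter_union_sdiff E (QQ δ)).symm
  have hd : Disjoint (E ∩ QQ δ) (E \ QQ δ) := by
    rw [Set.disjoint_left]
    rintro x ⟨_, h2⟩ ⟨_, h3⟩
    exact h3 h2
  have hz : ∀ x, x ∉ DD → w x = 0 := by
    intro x hx
    rw [← hD] at hx
    exact le_antisymm (not_lt.1 hx) (hw x)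
  have h2 : mu w E = mu w (E ∩ QQ δ) + mu w (E \ QQ δ) := by
    conv_lhs => rw [e]
    exact mu_union hi (hE.diff (QQ_meas δ)) hd
  have h3 : mu w (E ∩ QQ δ) ≤ volume.real (E ∩ QQ δ) := mu_le_vol h1 hi (QQ_fin hδ.le E)
  set B : Set ℂ := bx (-1) 1 (-1) 1
  set S1 : Set ℂ := bx (1 / 2 - δ) (1 / 2 + δ) (-1) 1
  set S2 : Set ℂ := bx (-(1 / 2) - δ) (-(1 / 2) + δ) (-1) 1
  set S3 : Set ℂ := bx (-1) 1 (1 / 2 - δ) (1 / 2 + δ)
  set S4 : Set ℂ := bx (-1) 1 (-(1 / 2) - δ) (-(1 / 2) + δ)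
  have I : ∀ (a b c d k : ℝ), Integrable ((bx a b c d).indicator (fun _ => k)) := by
    intro a b c d k
    exact (integrable_indicator_iff (bx_meas a b c d)).2 (integrableOn_const (bx_fin a b c d))
  have J : ∀ (a b c d k : ℝ), a ≤ b → c ≤ d →
      ∫ x, (bx a b c d).indicator (fun _ => k) x = (b - a) * (d - c) * k := by
    intro a b c d k hab hcd
    rw [integral_indicator (bx_meas a b c d), setIntegral_const, bx_vol hab hcd, smul_eq_mul]
  have pt : ∀ x, (E \ QQ δ).indicator w x ≤ B.indicator (fun _ => δ) x +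
      (S1.indicator (fun _ => (1 : ℝ)) x + (S2.indicator (fun _ => (1 : ℝ)) x +
      (S3.indicator (fun _ => (1 : ℝ)) x + S4.indicator (fun _ => (1 : ℝ)) x))) := by
    intro x
    have nB : 0 ≤ B.indicator (fun _ => δ) x := indicator_nonneg (fun _ _ => hδ.le) x
    have n1 : 0 ≤ S1.indicator (fun _ => (1 : ℝ)) x := indicator_nonneg (fun _ _ => zero_le_one) x
    have n2 : 0 ≤ S2.indicator (fun _ => (1 : ℝ)) x := indicator_nonneg (fun _ _ => zero_le_one) x
    have n3 : 0 ≤ S3.indicator (fun _ => (1 : ℝ)) x := indicator_nonneg (fun _ _ => zero_le_one) x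
    have n4 : 0 ≤ S4.indicator (fun _ => (1 : ℝ)) x := indicator_nonneg (fun _ _ => zero_le_one) x
    by_cases hx : x ∈ E \ QQ δ
    · rw [indicator_of_mem hx]
      by_cases hxD : x ∈ DD
      · have hxD' : |x.re| + |x.im| < 1 := hxD
        have a1 : |x.re| ≤ 1 := by linarith [abs_nonneg x.im]
        have a2 : |x.im| ≤ 1 := by linarith [abs_nonneg x.re]
        have b1 := abs_le.1 a1
        have b2 := abs_le.1 a2
        by_cases hT : 1 / 2 + δ ≤ |x.re| ∨ 1 / 2 + δ ≤ |x.im|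
        · have hB : x ∈ B := ⟨b1.1, b1.2, b2.1, b2.2⟩
          rw [indicator_of_mem hB]
          linarith [ht x hT]
        · push Not at hT
          have hq : ¬ (|x.re| < 1 / 2 - δ ∧ |x.im| < 1 / 2 - δ) := hx.2
          have hw1 := h1 x
          by_cases c1 : |x.re| < 1 / 2 - δ
          · have c2 : 1 / 2 - δ ≤ |x.im| := by
              by_contra h; exact hq ⟨c1, not_le.1 h⟩
            rcases le_total 0 x.im with h | h
            · rw [abs_of_nonneg h] at c2 hT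
              have : x ∈ S3 := ⟨b1.1, b1.2, c2, hT.2.le⟩
              rw [indicator_of_mem this]; linarith
            · rw [abs_of_nonpos h] at c2 hT
              have : x ∈ S4 := ⟨b1.1, b1.2, by linarith [hT.2], by linarith⟩
              rw [indicator_of_mem this]; linarith
          · have c2 : 1 / 2 - δ ≤ |x.re| := not_lt.1 c1
            rcases le_total 0 x.re with h | h
            · rw [abs_of_nonneg h] at c2 hT
              have : x ∈ S1 := ⟨c2, hT.1.le, b2.1, b2.2⟩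
              rw [indicator_of_mem this]; linarith
            · rw [abs_of_nonpos h] at c2 hT
              have : x ∈ S2 := ⟨by linarith [hT.1], by linarith, b2.1, b2.2⟩
              rw [indicator_of_mem this]; linarith
      · rw [hz x hxD]; linarith
    · rw [indicator_of_notMem hx]; linarith
  have h4 : mu w (E \ QQ δ) ≤ 20 * δ := by
    unfold mu
    rw [← integral_indicator (hE.diff (QQ_meas δ))]
    have I1 : Integrable ((E \ QQ δ).indicator w) := hi.indicator (hE.diff (QQ_meas δ))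
    have IB := I (-1) 1 (-1) 1 δ
    have IS1 := I (1 / 2 - δ) (1 / 2 + δ) (-1) 1 1
    have IS2 := I (-(1 / 2) - δ) (-(1 / 2) + δ) (-1) 1 1
    have IS3 := I (-1) 1 (1 / 2 - δ) (1 / 2 + δ) 1
    have IS4 := I (-1) 1 (-(1 / 2) - δ) (-(1 / 2) + δ) 1
    refine (integral_mono I1 (IB.add (IS1.add (IS2.add (IS3.add IS4)))) pt).trans ?_
    have K4 := integral_add IS3 IS4
    have K3 := integral_add IS2 (IS3.add IS4)
    have K2 := integral_add IS1 (IS2.add (IS3.add IS4))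
    have K1 := integral_add IB (IS1.add (IS2.add (IS3.add IS4)))
    simp only [Pi.add_apply] at K1 K2 K3 K4
    have J0 := J (-1) 1 (-1) 1 δ (by norm_num) (by norm_num)
    have J1 := J (1 / 2 - δ) (1 / 2 + δ) (-1) 1 1 (by linarith) (by norm_num)
    have J2 := J (-(1 / 2) - δ) (-(1 / 2) + δ) (-1) 1 1 (by linarith) (by norm_num)
    have J3 := J (-1) 1 (1 / 2 - δ) (1 / 2 + δ) 1 (by norm_num) (by linarith)
    have J4 := J (-1) 1 (-(1 / 2) - δ) (-(1 / 2) + δ) 1 (by norm_num) (by linarith)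
    refine le_of_eq (K1.trans ?_)
    rw [K2, K3, K4, J0, J1, J2, J3, J4]
    ring
  linarith

theorem inQ {w : ℂ → ℝ} {δ : ℝ} (hw : ∀ x, 0 ≤ w x) (hi : Integrable w) (hδ : 0 ≤ δ)
    (ht : ∀ x : ℂ, |x.re| ≤ 1 / 2 - δ → |x.im| ≤ 1 / 2 - δ → 1 - δ ≤ w x)
    {E : Set ℂ} (hE : MeasurableSet E) : (1 - δ) * volume.real (E ∩ QQ δ) ≤ mu w E := by
  have h1 : mu w (E ∩ QQ δ) ≤ mu w E := mu_mono hw hi inter_subset_left
  refine le_trans ?_ h1
  unfold mu
  have h2 : ∫ x in E ∩ QQ δ, (1 - δ) ≤ ∫ x in E ∩ QQ δ, w x := by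
    refine setIntegral_mono_on (integrableOn_const (QQ_fin hδ E)) hi.integrableOn
      (hE.inter (QQ_meas δ)) ?_
    rintro x ⟨_, h3, h4⟩
    exact ht x h3.le h4.le
  rw [setIntegral_const, smul_eq_mul] at h2
  linarith

theorem null_of_mu {w : ℂ → ℝ} (hw : ∀ x, 0 ≤ w x) (hi : Integrable w)
    (hD : {x | 0 < w x} = DD) {E : Set ℂ} (hE : E ⊆ DD) (h0 : mu w E = 0) :
    volume E = 0 := by
  by_contra h
  have hpos : 0 < volume E := pos_iff_ne_zero.2 h
  have h1 : 0 < mu w E := by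
    unfold mu
    rw [setIntegral_pos_iff_support_of_nonneg_ae (Eventually.of_forall hw) hi.integrableOn]
    have : Function.support w ∩ E = E := by
      apply inter_eq_right.2
      intro x hx
      have h2 := hE hx
      rw [← hD] at h2
      exact (ne_of_gt h2)
    rw [this]; exact hpos
  linarith

/-! ## Numerical lemmas -/

/-- The numerical core of the splitting argument. -/
theorem split_num {x y s : ℝ} (hx : 0 ≤ x) (hy : 0 ≤ y) (hs : 0 ≤ s)
    (h1 : x ^ 2 + y ^ 2 = s ^ 2) (h2 : x + y ≤ 1.2589 * s) (h3 : x ≤ 0.8901 * s) :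
    x ^ 2 ≤ 0.101 * s ^ 2 := by
  rcases eq_or_lt_of_le hs with h | h
  · rw [← h] at h1 ⊢; nlinarith
  set t : ℝ := x ^ 2 / s ^ 2 with ht
  have hs2 : 0 < s ^ 2 := by positivity
  have hx2 : x ^ 2 = t * s ^ 2 := by rw [ht]; field_simp
  have e1 : (x + y) ^ 2 ≤ (1.2589 * s) ^ 2 := by
    apply pow_le_pow_left₀ (by positivity) h2
  have e2 : x * y ≤ 0.29243 * s ^ 2 := by nlinarith
  have e3 : (x * y) ^ 2 ≤ (0.29243 * s ^ 2) ^ 2 := pow_le_pow_left₀ (by positivity) e2 2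
  have e4 : x ^ 2 * y ^ 2 ≤ 0.08552 * (s ^ 2 * s ^ 2) := by nlinarith [mul_pos hs2 hs2]
  have hy2 : y ^ 2 = (1 - t) * s ^ 2 := by nlinarith
  rw [hx2, hy2] at e4
  have e5 : t * (1 - t) ≤ 0.08552 := by
    have : t * (1 - t) * (s ^ 2 * s ^ 2) ≤ 0.08552 * (s ^ 2 * s ^ 2) := by nlinarith
    exact le_of_mul_le_mul_right this (by positivity)
  have e6 : x ^ 2 ≤ (0.8901 * s) ^ 2 := pow_le_pow_left₀ hx h3 2
  have e7 : t ≤ 0.7923 := by
    rw [hx2] at e6
    have : t * s ^ 2 ≤ 0.7923 * s ^ 2 := by nlinarith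
    exact le_of_mul_le_mul_right this hs2
  have e8 : t ≤ 0.101 := by
    by_contra h
    push Not at h
    nlinarith [mul_nonneg (sub_nonneg.2 h.le) (sub_nonneg.2 e7)]
  rw [hx2]
  nlinarith

theorem sqrt_add_ge {a b : ℝ} (ha : 0 ≤ a) (hb : 0 ≤ b) : √(a + b) ≤ √a + √b := by
  rw [Real.sqrt_le_left (by positivity)]
  nlinarith [Real.sq_sqrt ha, Real.sq_sqrt hb, mul_nonneg (Real.sqrt_nonneg a) (Real.sqrt_nonneg b)]

/-- The value of `δ`. -/
def dl : ℝ := 1 / 10 ^ 18

/-- The value of `v`. -/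
def vv : ℝ := 34 / 10 ^ 11

set_option maxHeartbeats 4000000 in
theorem massA {w : ℂ → ℝ} (hc : Continuous w) (hw : ∀ x, 0 ≤ w x) (h1 : ∀ x, w x ≤ 1)
    (hi : Integrable w) (hD : {x | 0 < w x} = DD) (c4 : S_C4)
    (hin : ∀ x : ℂ, |x.re| ≤ 1 / 2 - dl → |x.im| ≤ 1 / 2 - dl → 1 - dl ≤ w x)
    (hout : ∀ x : ℂ, (1 / 2 + dl ≤ |x.re| ∨ 1 / 2 + dl ≤ |x.im|) → w x ≤ dl)
    (q : ℂ) (hcont : ContinuousOn (fun r : ℝ => mu w (ball q r)) (Icc 0 (3 / 10)))
    (hq : ∀ r ∈ Icc (0 : ℝ) (3 / 10), |mu w (ball q r) - π * r ^ 2 / 4| ≤ dl ∧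
      PW w (ball q r) (π * r / 2 + dl))
    {A : Set ℂ} (hA : MinW w 100000 vv A) :
    mu w (A ∩ ball 1 (3 / 5)) ≤ 43 / 10 ^ 12 := by
  have hδ : (0 : ℝ) < dl := by unfold dl; positivity
  have hpi := Real.pi_gt_d4
  have hpi' := Real.pi_lt_d4
  set Q : Set ℂ := QQ dl with hQ
  set R : Set ℂ := {x | 2 / 5 < x.re ∧ |x.im| < 43 / 100} with hR
  set V : ℝ := volume.real (A ∩ Q) with hV
  set M : ℝ := mu w A with hM
  have hRm : MeasurableSet R := by
    have e : R = {x : ℂ | 2 / 5 < x.re} ∩ {x : ℂ | |x.im| < 43 / 100} := by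
      ext x; simp [hR]
    rw [e]
    exact (measurableSet_lt measurable_const Complex.measurable_re).inter
      (measurableSet_lt Complex.measurable_im.abs measurable_const)
  have hAQ : MeasurableSet (A ∩ Q) := hA.meas.inter (QQ_meas dl)
  have hfin : volume (A ∩ Q) ≠ ⊤ := QQ_fin hδ.le A
  set a : ℝ := volume.real (A ∩ Q ∩ R) with ha
  set b : ℝ := volume.real ((A ∩ Q) \ R) with hb
  have hab : a + b = V := measureReal_inter_add_sdiff hRm hfin
  have ha0 : 0 ≤ a := measureReal_nonneg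
  have hb0 : 0 ≤ b := measureReal_nonneg
  have hV0 : 0 ≤ V := measureReal_nonneg
  have hMV : M ≤ V + 20 * dl := outQ hw h1 hi hD hδ hout hA.meas
  have hVM : (1 - dl) * V ≤ M := inQ hw hi hδ.le hin hA.meas
  have hM0 : 0 ≤ M := mu_nonneg hw A
  have hMv : M ≤ vv := hA.le
  have c4' : ∀ P : ℝ, 0 ≤ P → PW w A P →
      √2 * (1 - dl) * (√a + √b) ≤ P + 200 * V ∧ 2 * (1 - dl) * √a ≤ P + 200 * V := by
    intro P hP hPW
    have := c4 w A P dl hc hw hA.meas hδ (by unfold dl; norm_num) hP hin hPW Q R rfl rfl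
    exact this
  have hs2 : (1.41421 : ℝ) ≤ √2 := by
    apply Real.le_sqrt_of_sq_le; norm_num
  have hs2' : (1.414 : ℝ) ≤ √2 * (1 - dl) := by
    unfold dl; nlinarith
  set s : ℝ := √V with hs
  have hs0 : 0 ≤ s := Real.sqrt_nonneg _
  have hsV : s ^ 2 = V := Real.sq_sqrt hV0
  have hsab : s ≤ √a + √b := by rw [hs, ← hab]; exact sqrt_add_ge ha0 hb0
  -- lower bound for `V`
  have hVlow : 1 / 10 ^ 10 ≤ V := by
    by_contra hlt
    push Not at hlt
    obtain ⟨g1, g2⟩ := hq (41 / 2000000) ⟨by norm_num, by norm_num⟩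
    rw [abs_le] at g1
    set m0 : ℝ := mu w (ball q (41 / 2000000)) with hm0
    have hm0v : m0 ≤ vv := by
      have := g1.2
      clear h1 hw hi hD
      unfold vv dl at *
      linarith
    have h3 := hA.min _ _ measurableSet_ball hm0v g2
    have hP0 := PW_nonneg hw h3
    have h4 := (c4' _ hP0 h3).1
    have h5 : 1.414 * s ≤ √2 * (1 - dl) * (√a + √b) :=
      mul_le_mul hs2' hsab hs0 (by linarith)
    have h6 : π * (41 / 2000000) / 2 + dl + 100000 * (mu w A - mu w (ball q (41 / 2000000))) ≤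
        100000 * M - 7 / 10 ^ 7 := by
      rw [← hM, ← hm0]
      have := g1.1
      unfold dl at *
      linarith
    have h7 : s < 1 / 10 ^ 5 := by
      rw [hs]
      rw [Real.sqrt_lt' (by positivity)]
      norm_num at hlt ⊢
      exact hlt
    have h8 : 1.414 * s ≤ 100000 * (V + 20 * dl) - 7 / 10 ^ 7 + 200 * V := by linarith
    rw [← hsV] at h8
    have h11 : dl = 1 / 10 ^ 18 := rfl
    rw [h11] at h8
    have h12 := mul_nonneg hs0 (sub_nonneg.2 h7.le)
    have h13 : s ^ 2 ≤ s * (1 / 10 ^ 5) := by rw [sq]; linarith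
    linarith
  -- upper bound
  have hVup : V ≤ 341 / 10 ^ 12 := by
    have : (1 - dl) * V ≤ vv := hVM.trans hMv
    have h9 : dl ≤ 1 / 10 ^ 10 := by unfold dl; norm_num
    unfold vv at this
    by_contra h
    push Not at h
    have h10 : (1 - 1 / 10 ^ 10) * V ≤ (1 - dl) * V :=
      mul_le_mul_of_nonneg_right (by linarith) hV0
    linarith
  have hslow : 1 / 10 ^ 5 ≤ s := by
    rw [hs]
    apply Real.le_sqrt_of_sq_le
    norm_num at hVlow ⊢
    exact hVlow
  have hsup : s ≤ 185 / 10 ^ 7 := by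
    rw [hs, Real.sqrt_le_left (by positivity)]
    refine hVup.trans (by norm_num)
  obtain ⟨r, hr, hrM⟩ : ∃ r ∈ Icc (0 : ℝ) (3 / 10), mu w (ball q r) = M := by
    have h0 : mu w (ball q 0) = 0 := by simp [mu]
    have h3 : M ≤ mu w (ball q (3 / 10)) := by
      have := (abs_le.1 (hq (3 / 10) ⟨by norm_num, le_rfl⟩).1).1
      unfold dl vv at *
      linarith
    have := intermediate_value_Icc (by norm_num : (0 : ℝ) ≤ 3 / 10) hcont
    have hmem : M ∈ Icc (mu w (ball q 0)) (mu w (ball q (3 / 10))) := ⟨by rw [h0]; exact hM0, h3⟩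
    obtain ⟨r, hr, hr'⟩ := this hmem
    exact ⟨r, hr, hr'⟩
  obtain ⟨g1, g2⟩ := hq r hr
  have h3 := hA.min _ _ measurableSet_ball (by rw [hrM]; exact hMv) g2
  rw [hrM, ← hM, sub_self, mul_zero, add_zero] at h3
  rw [hrM, abs_le] at g1
  have hP0 := PW_nonneg hw h3
  obtain ⟨h4, h5⟩ := c4' _ hP0 h3
  have hp : π * r / 2 ≤ 1.7725 * s := by
    have h6 : π * r ^ 2 / 4 ≤ V + 21 * dl := by linarith [g1.1]
    have h7 : 21 * dl ≤ 3 / 10 ^ 7 * V := by
      unfold dl; linarith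
    have h8 : (π * r / 2) ^ 2 ≤ (1.7725 * s) ^ 2 := by
      have : (π * r / 2) ^ 2 = π * (π * r ^ 2 / 4) := by ring
      rw [this, mul_pow, hsV]
      have h9 : π * r ^ 2 / 4 ≤ (1 + 3 / 10 ^ 7) * V := by linarith
      have h10 : π * (π * r ^ 2 / 4) ≤ 3.1416 * ((1 + 3 / 10 ^ 7) * V) :=
        mul_le_mul hpi'.le h9 (by positivity) (by norm_num)
      refine h10.trans ?_
      linarith
    exact le_of_sq_le_sq h8 (by positivity)
  have hdl : dl ≤ 0.0001 * s := by unfold dl; linarith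
  have h200 : 200 * V ≤ 0.0037 * s := by
    have hss := mul_le_mul_of_nonneg_right hsup hs0
    rw [← hsV, sq]
    linarith
  have hsum : π * r / 2 + dl + 200 * V ≤ 1.78 * s := by linarith
  have k1 : √a + √b ≤ 1.2589 * s := by
    have h6 : 1.414 * (√a + √b) ≤ √2 * (1 - dl) * (√a + √b) :=
      mul_le_mul_of_nonneg_right hs2' (by positivity)
    linarith
  have k2 : √a ≤ 0.8901 * s := by
    have h6 : 1.9999 * √a ≤ 2 * (1 - dl) * √a :=
      mul_le_mul_of_nonneg_right (by unfold dl; norm_num) (Real.sqrt_nonneg _)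
    linarith
  have k3 := split_num (Real.sqrt_nonneg a) (Real.sqrt_nonneg b) hs0
    (by rw [Real.sq_sqrt ha0, Real.sq_sqrt hb0, hsV]; exact hab) k1 k2
  rw [Real.sq_sqrt ha0, hsV] at k3
  have k4 : mu w (A ∩ ball 1 (3 / 5)) ≤ volume.real (A ∩ ball 1 (3 / 5) ∩ QQ dl) + 20 * dl :=
    outQ hw h1 hi hD hδ hout (hA.meas.inter measurableSet_ball)
  have k5 : volume.real (A ∩ ball 1 (3 / 5) ∩ QQ dl) ≤ a := by
    rw [ha]
    apply measureReal_mono
    · rintro x ⟨⟨hxA, hxb⟩, hxQ⟩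
      refine ⟨⟨hxA, hxQ⟩, ?_⟩
      have hxQ' : |x.re| < 1 / 2 - dl ∧ |x.im| < 1 / 2 - dl := hxQ
      rw [mem_ball, dist_eq_norm] at hxb
      have hre := (abs_le.1 (Complex.abs_re_le_norm (x - 1))).1
      have hn : ‖x - 1‖ ^ 2 = (x.re - 1) ^ 2 + x.im ^ 2 := by
        rw [Complex.sq_norm, Complex.normSq_apply]
        simp; ring
      simp only [Complex.sub_re, Complex.one_re] at hre
      refine ⟨by linarith, ?_⟩
      have hn2 : ‖x - 1‖ ^ 2 ≤ (3 / 5) ^ 2 := pow_le_pow_left₀ (norm_nonneg _) hxb.le 2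
      have hre2 := (abs_lt.1 hxQ'.1).2
      rw [hn] at hn2
      apply abs_lt_of_sq_lt_sq _ (by norm_num)
      nlinarith
    · exact ne_top_of_le_ne_top hfin (measure_mono inter_subset_left)
  have k6 : 20 * dl ≤ 1 / 10 ^ 14 := by unfold dl; norm_num
  linarith

end Pool.Agent.TH675.HU
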