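import Pool.Agent.TH675.HU.C13a

set_option autoImplicit false

open MeasureTheory Set Metric Filter Topology
open scoped ENNReal Real
open Pool.Agent.TH304.MI Pool.Agent.TH703.HU

noncomputable section

namespace Pool.Agent.TH675.HU

theorem phase1 {w : ℂ → ℝ} {sm : ℝ} (hsm : 10 ^ 7 ≤ sm) (hc : Continuous w) (hw : ∀ x, 0 ≤ w x)
    (h1 : ∀ x, w x ≤ 1) (hi : Integrable w) (c9 : S_C9) (c11 : S_C11)
    (c5m : ∀ (G : Set ℂ) (P : ℝ), MeasurableSet G → G ⊆ ball 1 (3 / 5) → 0 ≤ P → PW w G P →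
      mu w G ≤ 11 / 10 * P ^ 2 + P / sm)
    {A : Set ℂ} (hA : MinW w 100000 vv A) (hmass : mu w (A ∩ ball 1 (3 / 5)) ≤ 43 / 10 ^ 12) :
    mu w (A ∩ ball 1 (29 / 50)) ≤ (1 / sm) ^ 2 / 10 ^ 6 := by
  have hsm0 : 0 < sm := by linarith
  have hk : 1 / sm ≤ 1 / 10 ^ 7 := one_div_le_one_div_of_le (by norm_num) hsm
  refine c11 (fun t => mu w (A ∩ ball 1 t)) 100000 (1 / sm) (π * (2 * (3 / 5)))
    (ball_mono hw hi A 1 _) (ball_lip hw h1 hi hA.meas 1 (by norm_num))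
    (fun t _ => mu_nonneg hw _) (by norm_num) (by positivity)
    (hk.trans (by norm_num)) (hk.trans (by norm_num)) ?_ ?_
  · have : (100000 : ℝ) ^ 2 * mu w (A ∩ ball 1 (3 / 5)) ≤ 100000 ^ 2 * (43 / 10 ^ 12) :=
      mul_le_mul_of_nonneg_left hmass (by positivity)
    refine this.trans (by norm_num)
  · intro t ht d hd
    have h2 := c9 w 100000 vv A hc hw hi (by norm_num) hA 1 t d (by linarith [ht.1]) hd
    have hP := PW_nonneg hw h2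
    have h3 := c5m _ _ (hA.meas.inter measurableSet_ball)
      (inter_subset_right.trans (ball_subset_ball ht.2.le)) hP h2
    have h4 : (2 * d + 100000 * mu w (A ∩ ball 1 t)) / sm =
        1 / sm * (2 * d + 100000 * mu w (A ∩ ball 1 t)) := by ring
    rw [h4] at h3
    exact h3

theorem ball_in {sm : ℝ} (hsm : 10 ^ 7 ≤ sm) {y : ℝ} (hy : |y| ≤ 1 / 4) :
    ball (⟨1 / 2 + 1 / 20 / sm, y⟩ : ℂ) (1 / 20 / sm) ⊆ ball 1 (29 / 50) := by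
  have hsm0 : 0 < sm := by linarith
  have hR : 1 / 20 / sm ≤ 1 / 10 ^ 7 := by
    rw [div_le_iff₀ hsm0]; linarith
  have hR0 : 0 < 1 / 20 / sm := by positivity
  set R : ℝ := 1 / 20 / sm
  intro x hx
  rw [mem_ball] at hx ⊢
  have h2 : dist (⟨1 / 2 + R, y⟩ : ℂ) 1 ≤ 0.5592 := by
    rw [dist_eq_norm]
    have hn : ‖(⟨1 / 2 + R, y⟩ : ℂ) - 1‖ ^ 2 = (1 / 2 + R - 1) ^ 2 + y ^ 2 := by
      rw [Complex.sq_norm, Complex.normSq_apply]
      simp; ring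
    have hy2 : y ^ 2 ≤ (1 / 4) ^ 2 := sq_le_sq' (by linarith [(abs_le.1 hy).1]) (abs_le.1 hy).2
    apply abs_le_of_sq_le_sq' _ (by norm_num) |>.2
    rw [hn]
    nlinarith
  have h3 := dist_triangle x (⟨1 / 2 + R, y⟩ : ℂ) 1
  linarith

theorem ball_DD {sm : ℝ} (hsm : 10 ^ 7 ≤ sm) {y : ℝ} (hy : |y| ≤ 1 / 4) :
    ball (⟨1 / 2 + 1 / 20 / sm, y⟩ : ℂ) (1 / 40 / sm) ⊆ DD := by
  have hsm0 : 0 < sm := by linarith
  have hR : 1 / 20 / sm ≤ 1 / 10 ^ 7 := by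
    rw [div_le_iff₀ hsm0]; linarith
  have hR' : 1 / 40 / sm ≤ 1 / 10 ^ 7 := by
    rw [div_le_iff₀ hsm0]; linarith
  have hR0 : 0 < 1 / 20 / sm := by positivity
  intro x hx
  rw [mem_ball, dist_eq_norm] at hx
  have e1 := Complex.abs_re_le_norm (x - ⟨1 / 2 + 1 / 20 / sm, y⟩)
  have e2 := Complex.abs_im_le_norm (x - ⟨1 / 2 + 1 / 20 / sm, y⟩)
  simp only [Complex.sub_re, Complex.sub_im] at e1 e2
  have f1 := abs_le.1 (e1.trans hx.le)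
  have f2 := abs_le.1 (e2.trans hx.le)
  have hy' := abs_le.1 hy
  show |x.re| + |x.im| < 1
  have g1 : |x.re| ≤ 1 / 2 + 1 / 100 := abs_le.2 ⟨by linarith [f1.1], by linarith [f1.2]⟩
  have g2 : |x.im| ≤ 1 / 4 + 1 / 100 := abs_le.2 ⟨by linarith [f2.1, hy'.1], by linarith [f2.2, hy'.2]⟩
  linarith

theorem phase2 {w : ℂ → ℝ} {sm : ℝ} (hsm : 10 ^ 7 ≤ sm) (hc : Continuous w) (hw : ∀ x, 0 ≤ w x)
    (h1 : ∀ x, w x ≤ 1) (hi : Integrable w) (c9 : S_C9) (c10 : S_C10)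
    (c6m : ∀ (y : ℝ) (G : Set ℂ) (P : ℝ), |y| ≤ 1 / 4 → MeasurableSet G →
      G ⊆ ball ⟨1 / 2 + 1 / 20 / sm, y⟩ (1 / 20 / sm) → 0 ≤ P → PW w G P →
      7 / 10 * √(mu w G) ≤ P)
    {A : Set ℂ} (hA : MinW w 100000 vv A)
    (hmass : mu w (A ∩ ball 1 (29 / 50)) ≤ (1 / sm) ^ 2 / 10 ^ 6)
    {y : ℝ} (hy : |y| ≤ 1 / 4) :
    mu w (A ∩ ball ⟨1 / 2 + 1 / 20 / sm, y⟩ (1 / 40 / sm)) = 0 := by
  have hsm0 : 0 < sm := by linarith
  have hk0 : 0 < 1 / sm := by positivity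
  have hk : 1 / sm ≤ 1 / 10 ^ 7 := one_div_le_one_div_of_le (by norm_num) hsm
  set κ : ℝ := 1 / sm with hκ
  have eR : 1 / 20 / sm = κ / 20 := by rw [hκ]; ring
  have er : 1 / 40 / sm = κ / 40 := by rw [hκ]; ring
  set c : ℂ := ⟨1 / 2 + 1 / 20 / sm, y⟩ with hc'
  have hmR : mu w (A ∩ ball c (1 / 20 / sm)) ≤ κ ^ 2 / 10 ^ 6 :=
    (mu_mono hw hi (inter_subset_inter_right _ (ball_in hsm hy))).trans hmass
  have hs : √(mu w (A ∩ ball c (1 / 20 / sm))) ≤ κ / 10 ^ 3 := by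
    rw [Real.sqrt_le_left (by positivity)]
    refine hmR.trans (le_of_eq (by ring))
  have hhalf : (1 : ℝ) - 1 / 2 = 1 / 2 := by norm_num
  refine c10 (fun t => mu w (A ∩ ball c t)) (1 / 40 / sm) (1 / 20 / sm) (7 / 10) (1 / 2) 100000
    (π * (2 * (1 / 20 / sm))) (by rw [eR, er]; linarith)
    (ball_mono hw hi A c _) (ball_lip hw h1 hi hA.meas c (by rw [er]; positivity))
    (fun t _ => mu_nonneg hw _) (by norm_num) (by norm_num) (by norm_num) (by norm_num) ?_ ?_ ?_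
  · intro t ht d hd
    have ht0 : 0 < t := lt_trans (by rw [er]; positivity) ht.1
    have h2 := c9 w 100000 vv A hc hw hi (by norm_num) hA c t d ht0 hd
    have hP := PW_nonneg hw h2
    have h3 := c6m y _ _ hy (hA.meas.inter measurableSet_ball)
      (inter_subset_right.trans (ball_subset_ball ht.2.le)) hP h2
    rw [Real.sqrt_eq_rpow] at h3
    exact h3
  · rw [hhalf, ← Real.sqrt_eq_rpow]
    have := mul_le_mul_of_nonneg_left hs (by norm_num : (0 : ℝ) ≤ 100000)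
    linarith
  · rw [hhalf, ← Real.sqrt_eq_rpow, eR, er]
    rw [eR] at hs
    linarith

theorem near1 {w : ℂ → ℝ} {sm : ℝ} (hsm : 10 ^ 7 ≤ sm) (hc : Continuous w) (hw : ∀ x, 0 ≤ w x)
    (h1 : ∀ x, w x ≤ 1) (hi : Integrable w) (hD : {x | 0 < w x} = DD)
    (c9 : S_C9) (c10 : S_C10) (c11 : S_C11)
    (c5m : ∀ (G : Set ℂ) (P : ℝ), MeasurableSet G → G ⊆ ball 1 (3 / 5) → 0 ≤ P → PW w G P →
      mu w G ≤ 11 / 10 * P ^ 2 + P / sm)
    (c6m : ∀ (y : ℝ) (G : Set ℂ) (P : ℝ), |y| ≤ 1 / 4 → MeasurableSet G →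
      G ⊆ ball ⟨1 / 2 + 1 / 20 / sm, y⟩ (1 / 20 / sm) → 0 ≤ P → PW w G P →
      7 / 10 * √(mu w G) ≤ P)
    {A : Set ℂ} (hA : MinW w 100000 vv A) (hmass : mu w (A ∩ ball 1 (3 / 5)) ≤ 43 / 10 ^ 12) :
    volume (A ∩ {x | |x.re - (1 / 2 + 1 / 20 / sm)| < 1 / 100 / sm ∧ |x.im| < 1 / 4}) = 0 := by
  have hsm0 : 0 < sm := by linarith
  have hm1 := phase1 hsm hc hw h1 hi c9 c11 c5m hA hmass
  have hz : ∀ y : ℝ, |y| ≤ 1 / 4 →
      volume (A ∩ ball (⟨1 / 2 + 1 / 20 / sm, y⟩ : ℂ) (1 / 40 / sm)) = 0 := by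
    intro y hy
    exact null_of_mu hw hi hD (inter_subset_right.trans (ball_DD hsm hy))
      (phase2 hsm hc hw h1 hi c9 c10 c6m hA hm1 hy)
  have hsub : A ∩ {x : ℂ | |x.re - (1 / 2 + 1 / 20 / sm)| < 1 / 100 / sm ∧ |x.im| < 1 / 4} ⊆
      ⋃ (y : ℚ) (_ : |(y : ℝ)| ≤ 1 / 4),
        (A ∩ ball (⟨1 / 2 + 1 / 20 / sm, (y : ℝ)⟩ : ℂ) (1 / 40 / sm)) := by
    rintro x ⟨hxA, hx1, hx2⟩
    have hk0 : 0 < 1 / 100 / sm := by positivity
    have hx2' := abs_lt.1 hx2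
    obtain ⟨y, hy1, hy2⟩ := exists_rat_btwn (lt_min hx2'.2 (lt_add_of_pos_right x.im hk0))
    have hy3 := lt_of_lt_of_le hy2 (min_le_left _ _)
    have hy4 := lt_of_lt_of_le hy2 (min_le_right _ _)
    simp only [mem_iUnion]
    refine ⟨y, abs_le.2 ⟨by linarith [hx2'.1], hy3.le⟩, hxA, ?_⟩
    rw [mem_ball, dist_eq_norm]
    refine lt_of_le_of_lt (Complex.norm_le_abs_re_add_abs_im _) ?_
    simp only [Complex.sub_re, Complex.sub_im]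
    have h5 : |x.im - y| < 1 / 100 / sm := by
      rw [abs_lt]; constructor <;> linarith
    have h6 : 1 / 40 / sm = 5 / 2 * (1 / 100 / sm) := by ring
    rw [h6]
    linarith
  refine measure_mono_null hsub ?_
  rw [measure_iUnion_null_iff]
  intro y
  rw [measure_iUnion_null_iff]
  intro hy
  exact hz y hy

end Pool.Agent.TH675.HU
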